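import Pool.Agent.Lib.PRI.Main

/-!
# MP_d9ed73_al: primitive representations of nilpotent minimax groups

A nilpotent minimax group that is abelian-by-(finitely generated) and has a faithful irreducible primitive
representation over a finitely generated field of characteristic zero is finitely generated.
-/

set_option autoImplicit false

namespace Pool.Agent.Results.MP_d9ed73_al.AbelianByFG

open Pool.Agent.Lib.PRI

theorem result {G k V : Type} [Group G] [Field k] [AddCommGroup V] [Module k V]
    [Group.IsNilpotent G] [CharZero k] (hG : Minimax G)
    (A : Subgroup G) [A.Normal] (hA : ∀ a ∈ A, ∀ b ∈ A, a * b = b * a) (hGA : Group.FG (G ⧸ A))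
    (hk : FGField k) (ρ : Representation k G V) (hf : Function.Injective ρ) (hi : Irr ρ) (hp : Prim ρ) :
    Group.FG G :=
  main hG A hA hGA hk ρ hf hi hp

end Pool.Agent.Results.MP_d9ed73_al.AbelianByFG
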